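import Pool.Agent.H430R2.PermCubes.Upper

set_option autoImplicit false

/-!
# Variational sets of `m + 1` permutation cubes of order six, `m` odd

Three latin squares `L 0`, `L 1`, `L 2` with values in a finite abelian group `A` whose differences
`L 1 - L 0`, `L 2 - L 0` are jointly injective give, for every odd `m ≥ 5`, a variational set of
`m + 1` cubes of dimension `m` over `A`.
-/

namespace Pool.Agent.TH302.Cubes

open Function Pool.Agent.H430R2.PermCubes

variable {A : Type} [AddCommGroup A]

/-- three latin squares with values in `A`, such that the pair of differences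
`(L 1 - L 0, L 2 - L 0)` is injective -/
structure IsTriple (L : Fin 3 → A → A → A) : Prop where
  row : ∀ c p, Bijective (fun q => L c p q)
  col : ∀ c q, Bijective (fun p => L c p q)
  inj : ∀ p q p' q', L 1 p q - L 0 p q = L 1 p' q' - L 0 p' q' →
    L 2 p q - L 0 p q = L 2 p' q' - L 0 p' q' → p = p' ∧ q = q'

/-- a family of cubes indexed by `O` of dimension `I` over `A`, all lines bijective, jointly
injective, with one alternating relation -/
structure Good (I O : Type) [DecidableEq I] [Fintype O] (F : (I → A) → O → A) (s : O → ℤ) :
    Prop where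
  line : ∀ (o : O) (i : I) (x : I → A), Bijective (fun t => F (update x i t) o)
  inj : Injective F
  rel : ∀ x, ∑ o, s o • F x o = 0
  sgn : ∀ o, s o = 1 ∨ s o = -1
  bal : ∑ o, s o = 0

theorem bij_add_const {f : A → A} (hf : Bijective f) (a : A) : Bijective (fun t => a + f t) :=
  (Equiv.addLeft a).bijective.comp hf

theorem bij_add_const' {f : A → A} (hf : Bijective f) (a : A) : Bijective (fun t => f t + a) :=
  (Equiv.addRight a).bijective.comp hf

/-- the symbol of the new gadget for the old output `o` -/
def sym {O : Type} [DecidableEq O] (a b o : O) : Fin 3 := if o = a then 1 else if o = b then 2 else 0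

/-- the family of the recursion step -/
def stepF {I O : Type} [DecidableEq O] (L : Fin 3 → A → A → A) (F : (I → A) → O → A) (a b c : O)
    (x : Option (Option I) → A) : Option (Option O) → A
  | none => F (fun i => x (some (some i))) c + L 2 (x none) (x (some none))
  | some none => F (fun i => x (some (some i))) c + L 1 (x none) (x (some none))
  | some (some o) =>
      F (fun i => x (some (some i))) o + L (sym a b o) (x none) (x (some none))

/-- the signs of the recursion step -/
def stepS {O : Type} (s : O → ℤ) : Option (Option O) → ℤ
  | none => 1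
  | some none => -1
  | some (some o) => s o

/-- The recursion step. -/
theorem Good.step {L : Fin 3 → A → A → A} (hL : IsTriple L) {I O : Type} [DecidableEq I]
    [Fintype O] [DecidableEq O] {F : (I → A) → O → A} {s : O → ℤ} (h : Good I O F s) {a b c : O}
    (hab : a ≠ b) (hca : c ≠ a) (hcb : c ≠ b) (ha : s a = 1) (hb : s b = -1) :
    Good (Option (Option I)) (Option (Option O)) (stepF L F a b c) (stepS s) := by
  have upd : ∀ (x : Option (Option I) → A) (i : I) (t : A),
      (fun j => update x (some (some i)) t (some (some j))) =
        update (fun j => x (some (some j))) i t := by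
    intro x i t
    funext j
    by_cases hj : j = i
    · subst hj; simp
    · rw [update_of_ne hj, update_of_ne (by simpa using hj)]
  refine ⟨?_, ?_, ?_, ?_, ?_⟩
  · intro o i x
    match o, i with
    | none, none => simpa [stepF] using bij_add_const (hL.col 2 _) _
    | none, some none => simpa [stepF] using bij_add_const (hL.row 2 _) _
    | none, some (some i) =>
      simpa [stepF, upd] using bij_add_const' (h.line c i (fun j => x (some (some j)))) _
    | some none, none => simpa [stepF] using bij_add_const (hL.col 1 _) _
    | some none, some none => simpa [stepF] using bij_add_const (hL.row 1 _) _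
    | some none, some (some i) =>
      simpa [stepF, upd] using bij_add_const' (h.line c i (fun j => x (some (some j)))) _
    | some (some o), none => simpa [stepF] using bij_add_const (hL.col _ _) _
    | some (some o), some none => simpa [stepF] using bij_add_const (hL.row _ _) _
    | some (some o), some (some i) =>
      simpa [stepF, upd] using bij_add_const' (h.line o i (fun j => x (some (some j)))) _
  · intro x y hxy
    have h0 := congrFun hxy (some (some c))
    have h1 := congrFun hxy (some none)
    have h2 := congrFun hxy none
    have hc : sym a b c = 0 := by simp [sym, hca, hcb]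
    simp only [stepF, hc] at h0 h1 h2
    obtain ⟨hp, hq⟩ := hL.inj (x none) (x (some none)) (y none) (y (some none))
      (by
        have := congrArg₂ (· - ·) h1 h0
        simpa [add_sub_add_left_eq_sub] using this)
      (by
        have := congrArg₂ (· - ·) h2 h0
        simpa [add_sub_add_left_eq_sub] using this)
    have hF : F (fun i => x (some (some i))) = F (fun i => y (some (some i))) := by
      funext o
      have := congrFun hxy (some (some o))
      simp only [stepF, hp, hq] at this
      exact add_right_cancel this
    have hx := h.inj hF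
    funext i
    match i with
    | none => exact hp
    | some none => exact hq
    | some (some i) => exact congrFun hx i
  · intro x
    rw [Fintype.sum_option, Fintype.sum_option]
    simp only [stepF, stepS, smul_add, Finset.sum_add_distrib, h.rel, zero_add]
    -- the sum over the gadget
    set p := x none
    set q := x (some none)
    have hsum : ∑ o, s o • L (sym a b o) p q = L 1 p q - L 2 p q := by
      have e : ∀ o, s o • L (sym a b o) p q = s o • L 0 p q +
          ((if o = a then L 1 p q - L 0 p q else 0) -
            (if o = b then L 2 p q - L 0 p q else 0)) := by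
        intro o
        by_cases h1 : o = a
        · subst h1
          simp [sym, ha, hab]
        · by_cases h2 : o = b
          · subst h2
            simp only [sym, hb, h1, if_false, if_true, neg_smul, one_smul]
            abel
          · simp [sym, h1, h2]
      rw [Finset.sum_congr rfl (fun o _ => e o), Finset.sum_add_distrib, ← Finset.sum_smul,
        h.bal, Finset.sum_sub_distrib]
      simp
    rw [hsum]
    simp only [one_smul, neg_smul, one_smul]
    abel
  · intro o
    match o with
    | none => left; rfl
    | some none => right; rfl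
    | some (some o) => exact h.sgn o
  · rw [Fintype.sum_option, Fintype.sum_option]
    simp [stepS, h.bal]

/-- the words of the base case -/
def w1 : Fin 6 → Fin 3 := ![0, 0, 1, 1, 2, 2]

/-- the words of the base case -/
def w2 : Fin 6 → Fin 3 := ![0, 1, 1, 2, 2, 0]

/-- the base family, of dimension five -/
def baseF (L : Fin 3 → A → A → A) (x : Fin 5 → A) (o : Fin 6) : A :=
  x 0 + L (w1 o) (x 1) (x 2) + L (w2 o) (x 3) (x 4)

/-- the signs of the base family -/
def baseS : Fin 6 → ℤ := ![1, -1, 1, -1, 1, -1]

theorem good_base {L : Fin 3 → A → A → A} (hL : IsTriple L) :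
    Good (Fin 5) (Fin 6) (baseF L) baseS := by
  refine ⟨?_, ?_, ?_, ?_, ?_⟩
  · intro o i x
    fin_cases i
    · have : Bijective (fun t : A => t + (L (w1 o) (x 1) (x 2) + L (w2 o) (x 3) (x 4))) :=
        (Equiv.addRight _).bijective
      simpa [baseF, add_assoc] using this
    · simpa [baseF] using bij_add_const' (bij_add_const (hL.col (w1 o) (x 2)) (x 0)) _
    · simpa [baseF] using bij_add_const' (bij_add_const (hL.row (w1 o) (x 1)) (x 0)) _
    · simpa [baseF] using bij_add_const (hL.col (w2 o) (x 4)) _
    · simpa [baseF] using bij_add_const (hL.row (w2 o) (x 3)) _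
  · intro x y hxy
    have h0 := congrFun hxy 0
    have h1 := congrFun hxy 1
    have h2 := congrFun hxy 2
    have h3 := congrFun hxy 3
    have h4 := congrFun hxy 4
    have h5 := congrFun hxy 5
    simp only [baseF, w1, w2, Matrix.cons_val_zero, Matrix.cons_val_one, Matrix.cons_val] at h0 h1 h2 h3 h4 h5
    obtain ⟨hp, hq⟩ := hL.inj (x 1) (x 2) (y 1) (y 2)
      (by
        have := congrArg₂ (· - ·) h2 h1
        simpa [add_sub_add_left_eq_sub, add_sub_add_right_eq_sub] using this)
      (by
        have := congrArg₂ (· - ·) h5 h0
        simpa [add_sub_add_left_eq_sub, add_sub_add_right_eq_sub] using this)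
    obtain ⟨hr, hs⟩ := hL.inj (x 3) (x 4) (y 3) (y 4)
      (by
        have := congrArg₂ (· - ·) h1 h0
        simpa [add_sub_add_left_eq_sub, add_sub_add_right_eq_sub] using this)
      (by
        have := congrArg₂ (· - ·) h4 h5
        simpa [add_sub_add_left_eq_sub, add_sub_add_right_eq_sub] using this)
    rw [hp, hq, hr, hs] at h0
    have h00 := add_right_cancel (add_right_cancel h0)
    funext i
    fin_cases i
    · exact h00
    · exact hp
    · exact hq
    · exact hr
    · exact hs
  · intro x
    simp only [Fin.sum_univ_six, baseF, baseS, w1, w2, Matrix.cons_val_zero, Matrix.cons_val_one,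
      Matrix.cons_val, one_smul, neg_smul]
    abel
  · intro o
    fin_cases o <;> simp [baseS]
  · simp [Fin.sum_univ_six, baseS]

/-- A good family exists in every odd dimension at least five. -/
theorem exists_good {L : Fin 3 → A → A → A} (hL : IsTriple L) (r : ℕ) :
    ∃ (I O : Type) (_ : DecidableEq I) (_ : Fintype I) (_ : Fintype O) (_ : DecidableEq O)
      (F : (I → A) → O → A) (s : O → ℤ) (a b c : O), Good I O F s ∧ a ≠ b ∧ c ≠ a ∧ c ≠ b ∧
      s a = 1 ∧ s b = -1 ∧ Fintype.card I = 2 * r + 5 ∧ Fintype.card O = 2 * r + 6 := by
  induction r with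
  | zero =>
    exact ⟨Fin 5, Fin 6, inferInstance, inferInstance, inferInstance, inferInstance, baseF L,
      baseS, 0, 1, 2, good_base hL, by decide, by decide, by decide, rfl, rfl, by simp, by simp⟩
  | succ r ih =>
    obtain ⟨I, O, _, _, _, _, F, s, a, b, c, h, hab, hca, hcb, ha, hb, hI, hO⟩ := ih
    refine ⟨Option (Option I), Option (Option O), inferInstance, inferInstance, inferInstance,
      inferInstance, stepF L F a b c, stepS s, some (some a), some (some b), some (some c),
      h.step hL hab hca hcb ha hb, by simpa using hab, by simpa using hca, by simpa using hcb,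
      ha, hb, ?_, ?_⟩
    · simp only [Fintype.card_option, hI]; ring
    · simp only [Fintype.card_option, hO]; ring

/-- A good family with `m + 1` cubes of dimension `m` over `Fin n` is a variational set. -/
theorem Good.exists_variational {n : ℕ} [NeZero n] {I O : Type} [DecidableEq I] [Fintype I]
    [Fintype O] [DecidableEq O] {F : (I → Fin n) → O → Fin n} {s : O → ℤ} (h : Good I O F s)
    {m : ℕ} (hI : Fintype.card I = m) (hO : Fintype.card O = m + 1) :
    ∃ C : Fin (m + 1) → (Fin m → Fin n) → Fin n, IsVariationalSet m n (m + 1) C := by
  have eI : Fin m ≃ I := (Fintype.equivFinOfCardEq hI).symm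
  have eO : Fin (m + 1) ≃ O := (Fintype.equivFinOfCardEq hO).symm
  refine ⟨fun k x => F (fun i => x (eI.symm i)) (eO k), ?_, ?_⟩
  · intro k i x
    have e : ∀ t : Fin n, (fun j => update x i t (eI.symm j)) =
        update (fun j => x (eI.symm j)) (eI i) t := by
      intro t
      funext j
      by_cases hj : j = eI i
      · subst hj; simp
      · rw [update_of_ne hj, update_of_ne]
        intro h'
        exact hj (by rw [← h']; simp)
    simp only [e]
    exact h.line _ _ _
  · intro e he
    rw [← Finite.injective_iff_bijective]
    intro x y hxy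
    -- the missing output
    obtain ⟨k₀, hk₀⟩ : ∃ k₀, ∀ k, k ≠ k₀ → ∃ i, e i = k := by
      have hc : (Finset.univ.image e)ᶜ.card = 1 := by
        rw [Finset.card_compl, Finset.card_image_of_injective _ he]
        simp
      obtain ⟨k₀, hk₀⟩ := Finset.card_eq_one.1 hc
      refine ⟨k₀, fun k hk => ?_⟩
      by_contra hcon
      have : k ∈ (Finset.univ.image e)ᶜ := by
        simpa using hcon
      rw [hk₀, Finset.mem_singleton] at this
      exact hk this
    set X : I → Fin n := fun i => x (eI.symm i) with hX
    set Y : I → Fin n := fun i => y (eI.symm i) with hY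
    have hag : ∀ o, o ≠ eO k₀ → F X o = F Y o := by
      intro o ho
      obtain ⟨i, hi⟩ := hk₀ (eO.symm o) (fun h' => ho (by rw [← h']; simp))
      have := congrFun hxy i
      simpa [hi] using this
    have hsum : ∑ o, s o • (F X o - F Y o) = 0 := by
      simp only [smul_sub, Finset.sum_sub_distrib, h.rel, sub_zero]
    rw [Finset.sum_eq_single (eO k₀) (fun o _ ho => by rw [hag o ho, sub_self, smul_zero])
      (fun h' => absurd (Finset.mem_univ _) h')] at hsum
    have h0 : F X (eO k₀) = F Y (eO k₀) := by
      rcases h.sgn (eO k₀) with h1 | h1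
      · rw [h1, one_smul] at hsum
        exact sub_eq_zero.1 hsum
      · rw [h1, neg_smul, one_smul, neg_eq_zero] at hsum
        exact sub_eq_zero.1 hsum
    have hXY : X = Y := by
      apply h.inj
      funext o
      by_cases ho : o = eO k₀
      · rw [ho]; exact h0
      · exact hag o ho
    funext i
    have := congrFun hXY (eI i)
    simpa [hX, hY] using this

/-- the first latin square of order six -/
def sq0 : Fin 6 → Fin 6 → Fin 6 :=
  ![![0, 2, 3, 4, 5, 1], ![1, 0, 4, 3, 2, 5], ![5, 1, 0, 2, 3, 4], ![2, 5, 1, 0, 4, 3],
    ![3, 4, 5, 1, 0, 2], ![4, 3, 2, 5, 1, 0]]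

/-- the second latin square of order six -/
def sq1 : Fin 6 → Fin 6 → Fin 6 :=
  ![![0, 1, 2, 5, 3, 4], ![5, 2, 1, 3, 4, 0], ![3, 4, 0, 1, 2, 5], ![4, 0, 5, 2, 1, 3],
    ![2, 5, 3, 4, 0, 1], ![1, 3, 4, 0, 5, 2]]

/-- the third latin square of order six -/
def sq2 : Fin 6 → Fin 6 → Fin 6 :=
  ![![0, 1, 3, 5, 2, 4], ![5, 2, 4, 0, 1, 3], ![4, 0, 2, 3, 5, 1], ![3, 5, 1, 4, 0, 2],
    ![1, 3, 0, 2, 4, 5], ![2, 4, 5, 1, 3, 0]]

/-- the three latin squares -/
def sq : Fin 3 → Fin 6 → Fin 6 → Fin 6 := ![sq0, sq1, sq2]

set_option maxRecDepth 100000 in
theorem isTriple_sq : IsTriple sq := by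
  refine ⟨?_, ?_, ?_⟩
  · intro c p
    rw [← Finite.injective_iff_bijective]
    have : ∀ (c : Fin 3) (p q q' : Fin 6), sq c p q = sq c p q' → q = q' := by decide
    intro q q' h
    exact this c p q q' h
  · intro c q
    rw [← Finite.injective_iff_bijective]
    have : ∀ (c : Fin 3) (q p p' : Fin 6), sq c p q = sq c p' q → p = p' := by decide
    intro p p' h
    exact this c q p p' h
  · decide

/-- **For every odd `m ≥ 5` there is a variational set of `m + 1` cubes of order six.** -/
theorem exists_odd {m : ℕ} (hm : 5 ≤ m) (hodd : Odd m) :
    ∃ C : Fin (m + 1) → (Fin m → Fin 6) → Fin 6, IsVariationalSet m 6 (m + 1) C := by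
  obtain ⟨k, rfl⟩ := hodd
  obtain ⟨r, rfl⟩ : ∃ r, k = r + 2 := ⟨k - 2, by omega⟩
  obtain ⟨I, O, _, _, _, _, F, s, a, b, c, h, -, -, -, -, -, hI, hO⟩ := exists_good isTriple_sq r
  exact h.exists_variational (by rw [hI]; ring) (by rw [hO]; ring)

end Pool.Agent.TH302.Cubes
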